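import Mathlib

namespace Pool.Agent.Results.MP_8a2148_co.Cex

open Finset Matrix Complex

variable {n : ℕ}

/-- Laplacian: out-degree matrix minus adjacency matrix. -/
def lap (E : Fin n → Fin n → Bool) : Matrix (Fin n) (Fin n) ℤ := Matrix.of fun i j =>
  (if i = j then ((univ.filter fun k => E i k).card : ℤ) else 0) - if E i j then 1 else 0

/-- Restricted numerical range. -/
def Wr (E : Fin n → Fin n → Bool) : Set ℂ :=
  {z | ∃ x : Fin n → ℂ, ∑ i, x i = 0 ∧ star x ⬝ᵥ x = 1 ∧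
    z = star x ⬝ᵥ (lap E).map (Int.cast : ℤ → ℂ) *ᵥ x}

/-- Values of the quadratic form on real unit vectors orthogonal to the all-ones vector. -/
def Vr (E : Fin n → Fin n → Bool) : Set ℝ :=
  {t | ∃ x : Fin n → ℝ, ∑ i, x i = 0 ∧ x ⬝ᵥ x = 1 ∧ t = x ⬝ᵥ (lap E).map (Int.cast : ℤ → ℝ) *ᵥ x}

def Polygonal (E : Fin n → Fin n → Bool) : Prop :=
  ∀ Q : Matrix (Fin n) (Fin (n - 1)) ℂ, Qᴴ * Q = 1 → (∀ x, (∃ y, Q *ᵥ y = x) ↔ ∑ i, x i = 0) →
    Wr E = convexHull ℝ (spectrum ℂ (Qᴴ * (lap E).map (Int.cast : ℤ → ℂ) * Q))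

def bit (l : List ℕ) (i j : Fin 25) : Bool := (l.getD i 0).testBit j

def G : Fin 25 → Fin 25 → Bool := bit [5611766, 11161849, 10051834, 6721781, 5922656, 10858384,
  9871264, 6909776, 10835471, 5941519, 6920719, 9856271, 17779365, 17794394, 17770089, 17766806,
  32770650, 33031589, 32638614, 32573801, 21034410, 25229909, 18938214, 17888921, 4095]

def L (i j : Fin 25) : ℤ := (if i = j then 12 else 0) - if G i j then 1 else 0

lemma lap_eq : lap G = L := by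
  have h : ∀ i, (univ.filter fun k => G i k).card = 12 := by decide +kernel
  ext i j
  simp [lap, L, h]

def B (k i : Fin 25) : ℤ := (if bit [3, 48, 768, 12288, 196608, 3145728, 16777215, 4095, 16777216, 1,
  4, 16, 64, 256, 1024, 4096, 16384, 65536, 262144, 1048576, 4194304, 273, 1092, 1118208, 4472832]
  k i then 1 else 0) - if bit [12, 192, 3072, 49152, 786432, 12582912, 0, 16773120, 0, 2, 8, 32,
  128, 512, 2048, 8192, 32768, 131072, 524288, 2097152, 8388608, 546, 2184, 2236416, 8945664] k i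
  then 1 else 0

def w (k : Fin 25) : ℕ :=
  [12, 12, 12, 12, 12, 12, 2, 1, 24, 6, 6, 6, 6, 6, 6, 6, 6, 6, 6, 6, 6, 4, 4, 4, 4].getD k 0

def C (s : ℤ) (k i : Fin 25) : ℤ := if k.1 < 12 then (if i.1 = 2 * k.1 then 1 else
  if i.1 = 2 * k.1 + 1 then (if k.1 < 6 then -s else s) else 0) else
  if k.1 = 12 ∧ i.1 = 24 then 1 else 0

lemma i1 : ∀ i j, ∑ k, (L k i - L i k) * (L k j - L j k) + ∑ k, w k * (B k i * B k j) =
    if i = j then 48 else 0 := by decide +kernel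

lemma i2 : ∀ i j, L i j + L j i + 1 = (if i = j then 24 else 0) + ∑ k, C 1 k i * C 1 k j := by
  decide +kernel

lemma i3 : ∀ i j, L i j + L j i + 1 + ∑ k, C (-1) k i * C (-1) k j = if i = j then 26 else 0 := by
  decide +kernel

def P (e : ℕ) (i : Fin 25) : ℤ :=
  if i.1 / 12 = e then (if i.1 % 12 < 4 then 2 else -1) else 0

def R (e : ℕ) (i : Fin 25) : ℤ :=
  if i.1 / 12 = e then (if i.1 % 12 < 4 then 0 else if i.1 % 12 < 8 then 1 else -1) else 0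

lemma i4 : ∀ e < 2, (∀ i, ∑ j, L i j * P e j = (12 + e) * P e i + 6 * R e i) ∧
    (∀ i, ∑ j, L i j * R e j = (12 + e) * R e i - 2 * P e i) ∧ ∑ i, P e i = 0 ∧ ∑ i, R e i = 0 ∧
    ∀ f < 2, ∑ i, P e i * P f i = (if e = f then 24 else 0) ∧ ∑ i, P e i * R f i = 0 ∧
      ∑ i, R e i * R f i = if e = f then 8 else 0 := by decide +kernel

noncomputable def Lr : Matrix (Fin 25) (Fin 25) ℝ := (lap G).map (Int.cast : ℤ → ℝ)
noncomputable def Lc : Matrix (Fin 25) (Fin 25) ℂ := (lap G).map (Int.cast : ℤ → ℂ)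

lemma Lr_ap (i j) : Lr i j = L i j := by rw [Lr, map_apply, lap_eq]

lemma quad (X : Fin 25 → Fin 25 → ℝ) (a : Fin 25 → ℝ) (c : Fin 25 → ℝ) :
    ∑ i, ∑ j, a i * (∑ k, c k * (X k i * X k j)) * a j = ∑ k, c k * (∑ i, X k i * a i) ^ 2 := by
  simp only [sq, mul_sum, sum_mul]
  rw [sum_comm]
  conv_lhs => enter [2, j]; rw [sum_comm]
  rw [sum_comm]
  exact sum_congr rfl fun k _ => sum_congr rfl fun j _ => sum_congr rfl fun i _ => by ring

lemma diag (a : Fin 25 → ℝ) (c : ℝ) :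
    ∑ i, ∑ j, a i * (if i = j then c else 0) * a j = c * (a ⬝ᵥ a) := by
  simp [dotProduct, mul_sum, mul_comm, mul_left_comm]

lemma sym (a : Fin 25 → ℝ) (h : ∑ i, a i = 0) :
    ∑ i, ∑ j, a i * (L i j + L j i + 1) * a j = 2 * (a ⬝ᵥ Lr *ᵥ a) := by
  have h1 : ∑ i, ∑ j, a i * L j i * a j = ∑ i, ∑ j, a i * L i j * a j := by
    rw [sum_comm]; exact sum_congr rfl fun _ _ => sum_congr rfl fun _ _ => by ring
  have h2 : ∑ i, ∑ j, a i * a j = 0 := by rw [← sum_mul_sum, h, zero_mul]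
  simp only [mul_add, add_mul, sum_add_distrib, h1, mul_one, h2]
  simp only [dotProduct, mulVec, mul_sum, Lr_ap, mul_assoc, two_mul, add_zero,
    sum_add_distrib]

lemma re_bd (a : Fin 25 → ℝ) (h : ∑ i, a i = 0) :
    12 * (a ⬝ᵥ a) ≤ a ⬝ᵥ Lr *ᵥ a ∧ a ⬝ᵥ Lr *ᵥ a ≤ 13 * (a ⬝ᵥ a) := by
  have h0 := sym a h
  have p : ∀ s, 0 ≤ ∑ i, ∑ j, a i * (∑ k, 1 * ((C s k i : ℝ) * C s k j)) * a j := fun s => by
    rw [quad (fun k i => C s k i)]; positivity
  have h2 : ∀ i j, (L i j + L j i + 1 : ℝ) = (if i = j then 24 else 0) +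
      ∑ k, 1 * ((C 1 k i : ℝ) * C 1 k j) := fun i j => by
    simp only [one_mul]; exact_mod_cast i2 i j
  have h3 : ∀ i j, (L i j + L j i + 1 : ℝ) = (if i = j then 26 else 0) -
      ∑ k, 1 * ((C (-1) k i : ℝ) * C (-1) k j) := fun i j => by
    simp only [one_mul, eq_sub_iff_add_eq]; exact_mod_cast i3 i j
  constructor
  · simp only [h2, mul_add, add_mul, sum_add_distrib, diag] at h0
    linarith [p 1]
  · simp only [h3, mul_sub, sub_mul, sum_sub_distrib, diag] at h0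
    linarith [p (-1)]

lemma im_bd (a b : Fin 25 → ℝ) :
    a ⬝ᵥ Lr *ᵥ b - b ⬝ᵥ Lr *ᵥ a ≤ 2 * √3 * (a ⬝ᵥ a + b ⬝ᵥ b) := by
  obtain ⟨y, hy⟩ : ∃ y : Fin 25 → ℝ, ∀ k, y k = ∑ i, ((L k i : ℝ) - L i k) * b i := ⟨_, fun _ => rfl⟩
  have h1 : a ⬝ᵥ Lr *ᵥ b - b ⬝ᵥ Lr *ᵥ a = ∑ k, a k * y k := by
    simp only [hy, dotProduct, mulVec, mul_sum, Lr_ap, sub_mul, mul_sub, sum_sub_distrib]
    congr 1
    rw [sum_comm]; exact sum_congr rfl fun _ _ => sum_congr rfl fun _ _ => by ring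
  have h2 : ∑ k, y k ^ 2 ≤ 48 * (b ⬝ᵥ b) := by
    have h3 : ∀ i j, (if i = j then 48 else 0 : ℝ) = ∑ k, 1 * (((L k i : ℝ) - L i k) *
        (L k j - L j k)) + ∑ k, (w k : ℝ) * ((B k i : ℝ) * B k j) := fun i j => by
      simp only [one_mul]; exact_mod_cast (i1 i j).symm
    rw [← diag]
    simp only [h3, mul_add, add_mul, sum_add_distrib]
    rw [quad (fun k i => (L k i : ℝ) - L i k), quad (fun k i => B k i)]
    simp only [one_mul, ← hy, le_add_iff_nonneg_right]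
    positivity
  have h3 : √3 * √3 = 3 := Real.mul_self_sqrt (by norm_num)
  have h4 : 0 < √3 := by positivity
  have h5 : 0 ≤ ∑ k, (4 * √3 * a k - y k) ^ 2 := by positivity
  have h6 : ∑ k, (4 * √3 * a k - y k) ^ 2 =
      48 * (a ⬝ᵥ a) - 8 * √3 * ∑ k, a k * y k + ∑ k, y k ^ 2 := by
    simp only [dotProduct, mul_sum, ← sum_sub_distrib, ← sum_add_distrib]
    exact sum_congr rfl fun k _ => by linear_combination 16 * a k ^ 2 * h3
  rw [h1]
  apply le_of_mul_le_mul_left _ h4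
  rw [show √3 * (2 * √3 * (a ⬝ᵥ a + b ⬝ᵥ b)) = 6 * (a ⬝ᵥ a + b ⬝ᵥ b) by
    linear_combination 2 * (a ⬝ᵥ a + b ⬝ᵥ b) * h3]
  linarith

lemma cx (a b : Fin 25 → ℝ) (x : Fin 25 → ℂ) (h : ∀ i, x i = a i + b i * I) :
    ∑ i, x i = (∑ i, a i : ℝ) + (∑ i, b i : ℝ) * I ∧ star x ⬝ᵥ x = (a ⬝ᵥ a + b ⬝ᵥ b : ℝ) ∧
    star x ⬝ᵥ Lc *ᵥ x = (a ⬝ᵥ Lr *ᵥ a + b ⬝ᵥ Lr *ᵥ b : ℝ) +
      (a ⬝ᵥ Lr *ᵥ b - b ⬝ᵥ Lr *ᵥ a : ℝ) * I := by
  refine ⟨by simp [h, sum_add_distrib, sum_mul], ?_, ?_⟩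
  · simp only [dotProduct, ← sum_add_distrib, ofReal_sum]
    exact sum_congr rfl fun i _ => by simp [h, Complex.ext_iff, mul_comm]
  · simp only [dotProduct, mulVec, mul_sum, ← sum_add_distrib, ← sum_sub_distrib, ofReal_sum, sum_mul]
    refine sum_congr rfl fun i _ => sum_congr rfl fun j _ => ?_
    simp [h, Complex.ext_iff, Lc, Lr]
    ring

def Rect : Set ℂ := {z | 12 ≤ z.re ∧ z.re ≤ 13 ∧ |z.im| ≤ 2 * √3}

lemma W_sub : Wr G ⊆ Rect := by
  rintro _ ⟨x, h1, h2, rfl⟩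
  obtain ⟨c1, c2, c3⟩ := cx (fun i => (x i).re) (fun i => (x i).im) x fun i => (re_add_im _).symm
  generalize (fun i => (x i).re) = a at *
  generalize (fun i => (x i).im) = b at *
  rw [h1, Complex.ext_iff] at c1
  have h3 : a ⬝ᵥ a + b ⬝ᵥ b = 1 := by exact_mod_cast c2.symm.trans h2
  have ha := re_bd a (by simpa using c1.1.symm)
  have hb := re_bd b (by simpa using c1.2.symm)
  have h4 := im_bd a b
  have h5 := im_bd b a
  rw [add_comm (b ⬝ᵥ b)] at h5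
  rw [h3] at h4 h5
  change star x ⬝ᵥ Lc *ᵥ x ∈ Rect
  rw [c3]
  simp only [Rect, Set.mem_ofPred_eq, add_re, ofReal_re, mul_re, I_re, mul_zero, ofReal_im, I_im,
    add_im, mul_im, mul_one, abs_le]
  refine ⟨by linarith, by linarith, by linarith, by linarith⟩

noncomputable def p (e : ℕ) : Fin 25 → ℝ := fun i => P e i
noncomputable def r (e : ℕ) : Fin 25 → ℝ := fun i => R e i

lemma pr (e : ℕ) (he : e < 2) : Lr *ᵥ p e = (12 + e : ℝ) • p e + (6 : ℝ) • r e ∧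
    Lr *ᵥ r e = (12 + e : ℝ) • r e - (2 : ℝ) • p e ∧ ∑ i, p e i = 0 ∧ ∑ i, r e i = 0 ∧
    ∀ f < 2, p e ⬝ᵥ p f = (if e = f then 24 else 0) ∧ p e ⬝ᵥ r f = 0 ∧ r f ⬝ᵥ p e = 0 ∧
      r e ⬝ᵥ r f = if e = f then 8 else 0 := by
  obtain ⟨h1, h2, h3, h4, h5⟩ := i4 e he
  refine ⟨funext fun i => ?_, funext fun i => ?_, by unfold p; exact_mod_cast h3,
    by unfold r; exact_mod_cast h4, fun f hf => ?_⟩
  · simp only [mulVec, dotProduct, Lr_ap, p, r, Pi.add_apply, Pi.smul_apply, smul_eq_mul]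
    exact_mod_cast h1 i
  · simp only [mulVec, dotProduct, Lr_ap, p, r, Pi.sub_apply, Pi.smul_apply, smul_eq_mul]
    exact_mod_cast h2 i
  · obtain ⟨h6, h7, h8⟩ := h5 f hf
    rw [dotProduct_comm (r f), and_self_left]
    simp only [dotProduct, p, r]
    exact_mod_cast And.intro h6 (And.intro h7 h8)

lemma val (c1 c2 c3 c4 : ℝ) (h : 24 * c1 ^ 2 + 8 * c2 ^ 2 + 24 * c3 ^ 2 + 8 * c4 ^ 2 = 1) :
    ((12 + (24 * c3 ^ 2 + 8 * c4 ^ 2) : ℝ) + (-96 * (c1 * c2 + c3 * c4) : ℝ) * I : ℂ) ∈ Wr G := by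
  obtain ⟨a1, a2, a3, a4, a5⟩ := pr 0 (by norm_num)
  obtain ⟨b1, b2, b3, b4, b5⟩ := pr 1 (by norm_num)
  obtain ⟨d1, d2, d3⟩ := cx (c1 • p 0 + c3 • p 1) (c2 • r 0 + c4 • r 1) _ fun i => rfl
  refine ⟨_, d1.trans ?_, d2.trans ?_, Eq.trans ?_ d3.symm⟩
  · simp [sum_add_distrib, ← mul_sum, a3, a4, b3, b4]
  · simp only [add_dotProduct, dotProduct_add, smul_dotProduct, dotProduct_smul, a5 0, a5 1, b5 0,
      b5 1, Nat.zero_lt_two, Nat.one_lt_two, smul_eq_mul]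
    norm_cast
    simp
    linarith
  · simp only [mulVec_add, mulVec_smul, a1, a2, b1, b2, add_dotProduct, dotProduct_add,
      dotProduct_sub, smul_dotProduct, dotProduct_smul, a5 0, a5 1, b5 0,
      b5 1, Nat.zero_lt_two, Nat.one_lt_two, smul_eq_mul]
    congr 1 <;> congr 1
    · simp
      linarith
    congr 1
    · simp
      ring

lemma sub_W : Rect ⊆ Wr G := by
  rintro z ⟨h1, h2, h3⟩
  have s3 : √3 * √3 = 3 := Real.mul_self_sqrt (by norm_num)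
  have h4 : 0 < √3 := by positivity
  obtain ⟨t, ht⟩ : ∃ t, z.im = 2 * √3 * t := ⟨z.im / (2 * √3), by field_simp⟩
  rw [ht, abs_mul, abs_of_pos (by positivity), mul_le_iff_le_one_right (by positivity), abs_le] at h3
  obtain ⟨a, ha⟩ : ∃ a : ℝ, a ^ 2 = (1 + t) / 96 := ⟨_, Real.sq_sqrt (by linarith)⟩
  obtain ⟨b, hb⟩ : ∃ a : ℝ, a ^ 2 = (1 - t) / 96 := ⟨_, Real.sq_sqrt (by linarith)⟩
  obtain ⟨u, hu⟩ : ∃ a : ℝ, a ^ 2 = 13 - z.re := ⟨_, Real.sq_sqrt (by linarith)⟩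
  obtain ⟨v, hv⟩ : ∃ a : ℝ, a ^ 2 = z.re - 12 := ⟨_, Real.sq_sqrt (by linarith)⟩
  have e1 : 24 * (a + b) ^ 2 + 8 * (√3 * (b - a)) ^ 2 = 1 := by
    linear_combination 48 * ha + 48 * hb + 8 * (b - a) ^ 2 * s3
  convert val (u * (a + b)) (u * (√3 * (b - a))) (v * (a + b)) (v * (√3 * (b - a)))
    (by linear_combination (u ^ 2 + v ^ 2) * e1 + hu + hv) using 1
  rw [← re_add_im z]
  congr 3
  · linear_combination -v ^ 2 * e1 - hv
  · rw [ht]
    linear_combination 96 * √3 * (u ^ 2 + v ^ 2) * (hb - ha) - 2 * √3 * t * (hu + hv)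

lemma conv : Convex ℝ Rect := by
  intro x hx y hy a b ha hb hab
  simp only [Rect, Set.mem_ofPred_eq, abs_le, add_re, add_im, smul_re, smul_im, smul_eq_mul] at *
  refine ⟨?_, ?_, ?_, ?_⟩ <;> nlinarith [hx.1, hx.2.1, hx.2.2.1, hx.2.2.2, hy.1, hy.2.1, hy.2.2.1,
    hy.2.2.2]

lemma spec {m : ℕ} (A : Matrix (Fin m) (Fin m) ℂ) (z : ℂ) :
    z ∈ spectrum ℂ A ↔ ∃ y, y ≠ 0 ∧ A *ᵥ y = z • y := by
  rw [spectrum.mem_iff, isUnit_iff_isUnit_det, isUnit_iff_ne_zero, not_not,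
    ← exists_mulVec_eq_zero_iff]
  simp only [sub_mulVec, Algebra.algebraMap_eq_smul_one, smul_mulVec, one_mulVec, sub_eq_zero,
    eq_comm]

open scoped ComplexOrder in
lemma pos {m : ℕ} (y : Fin m → ℂ) (h : y ≠ 0) : 0 < star y ⬝ᵥ y := dotProduct_star_self_pos_iff.2 h

theorem result : ∃ (n : ℕ) (E : Fin n → Fin n → Bool), 2 ≤ n ∧ Odd n ∧ (∀ i, E i i = false) ∧
    Polygonal E ∧ ∃ α : ℝ, IsLeast (Vr E) α ∧ IsGreatest (Vr E) (α + 1) := by
  have s3 : √3 * √3 = 3 := Real.mul_self_sqrt (by norm_num)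
  refine ⟨25, G, by norm_num, by decide, by decide +kernel, fun Q q1 q2 => ?_, 12, ?_⟩
  · change Wr G = convexHull ℝ (spectrum ℂ (Qᴴ * Lc * Q))
    rw [W_sub.antisymm sub_W]
    apply Set.Subset.antisymm
    · have cor : ∀ e : ℕ, e < 2 → ∀ s : ℝ, s * s = 3 → ((12 + e : ℝ) + (2 * s : ℝ) * I : ℂ) ∈
          convexHull ℝ (spectrum ℂ (Qᴴ * Lc * Q)) := by
        intro e he s hs
        obtain ⟨a1, a2, a3, a4, a5⟩ := pr e he
        obtain ⟨y, hy⟩ := (q2 fun i => p e i + (-s * r e i : ℝ) * I).2 (by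
          rw [(cx _ _ _ fun i => rfl).1, a3, ← mul_sum, a4]; simp)
        refine subset_convexHull _ _ ((spec _ _).2 ⟨y, fun h => ?_, ?_⟩)
        · have h1 : p e = 0 := funext fun i => by
            simpa [h] using (congrArg re (congrFun hy i)).symm
          simpa [h1] using (a5 e he).1
        · have h1 : Lc *ᵥ (Q *ᵥ y) = ((12 + e : ℝ) + (2 * s : ℝ) * I : ℂ) • (Q *ᵥ y) := by
            rw [hy]
            ext i
            have b1 := congrFun a1 i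
            have b2 := congrFun a2 i
            simp only [mulVec, dotProduct, Lr, map_apply, Pi.add_apply, Pi.sub_apply,
              Pi.smul_apply, smul_eq_mul] at b1 b2
            have b3 : ∑ j, (lap G i j : ℝ) * (s * r e j) = s * ∑ j, (lap G i j : ℝ) * r e j := by
              rw [mul_sum]; exact sum_congr rfl fun _ _ => by ring
            simp [mulVec, dotProduct, Lc, Complex.ext_iff, b1, b3, b2]
            constructor
            · linear_combination -2 * r e i * hs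
            · ring
          rw [← mulVec_mulVec, ← mulVec_mulVec, h1, mulVec_smul, mulVec_mulVec, q1, one_mulVec]
      rintro z ⟨h1, h2, h3⟩
      have h4 : 0 < √3 := by positivity
      obtain ⟨t, ht⟩ : ∃ t, z.im = 2 * √3 * t := ⟨z.im / (2 * √3), by field_simp⟩
      rw [ht, abs_mul, abs_of_pos (by positivity), mul_le_iff_le_one_right (by positivity),
        abs_le] at h3
      have ed : ∀ e : ℕ, e < 2 → _ := fun e he => convex_convexHull ℝ _ (cor e he √3 s3)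
        (cor e he (-√3) (by linarith)) (a := (1 + t) / 2) (b := (1 - t) / 2) (by linarith)
        (by linarith) (by ring)
      convert convex_convexHull ℝ _ (ed 0 (by norm_num)) (ed 1 (by norm_num)) (a := 13 - z.re)
        (b := z.re - 12) (by linarith) (by linarith) (by ring) using 1
      simp [Complex.ext_iff, ht]
      constructor <;> ring
    · refine convexHull_min (fun z hz => W_sub ?_) conv
      obtain ⟨y, h1, h2⟩ := (spec _ _).1 hz
      obtain ⟨c, hc⟩ : ∃ c : ℝ, (c : ℂ) * c * (star y ⬝ᵥ y) = 1 := by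
        obtain ⟨h4, h5⟩ := Complex.pos_iff.1 (pos y h1)
        refine ⟨(√(star y ⬝ᵥ y).re)⁻¹, ?_⟩
        rw [← re_add_im (star y ⬝ᵥ y), ← h5]
        simp only [ofReal_zero, zero_mul, add_zero, ofReal_re]
        norm_cast
        rw [← mul_inv, Real.mul_self_sqrt h4.le, inv_mul_cancel₀ h4.ne']
      have h3 : ∀ M : Matrix (Fin 25) (Fin 25) ℂ, star (Q *ᵥ ((c : ℂ) • y)) ⬝ᵥ M *ᵥ (Q *ᵥ ((c : ℂ) • y)) =
          c * c * (star y ⬝ᵥ (Qᴴ * M * Q) *ᵥ y) := fun M => by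
        rw [star_mulVec, ← dotProduct_mulVec, mulVec_mulVec, mulVec_mulVec]
        simp [mulVec_smul, mul_assoc]
      refine ⟨Q *ᵥ ((c : ℂ) • y), (q2 _).1 ⟨_, rfl⟩, ?_, ?_⟩
      · simpa [q1, hc] using h3 1
      · change z = star _ ⬝ᵥ Lc *ᵥ _
        rw [h3, h2, dotProduct_smul, smul_eq_mul, mul_left_comm, hc, mul_one]
  · obtain ⟨c, hc⟩ : ∃ c : ℝ, c * c = 1 / 24 := ⟨_, Real.mul_self_sqrt (by norm_num)⟩
    have m : ∀ e : ℕ, e < 2 → (12 + e : ℝ) ∈ Vr G := fun e he => by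
      obtain ⟨a1, -, a3, -, a5⟩ := pr e he
      refine ⟨c • p e, by simp [← mul_sum, a3], ?_, ?_⟩
      · simp [a5 e he, ← mul_assoc, hc]
      · change _ = _ ⬝ᵥ Lr *ᵥ _
        simp [mulVec_smul, a1, a5 e he]
        linear_combination -24 * (12 + e) * hc
    refine ⟨⟨by simpa using m 0 (by norm_num), ?_⟩, by simpa using m 1 (by norm_num), ?_⟩
    · rintro _ ⟨x, h1, h2, rfl⟩
      simpa [h2, Lr] using (re_bd x h1).1
    · rintro _ ⟨x, h1, h2, rfl⟩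
      have := (re_bd x h1).2
      change _ ⬝ᵥ Lr *ᵥ _ ≤ _
      linarith

end Pool.Agent.Results.MP_8a2148_co.Cex
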